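import Mathlib

namespace Pool.Agent.Lib.MP_e4e265_co

/-- The greedy mex matrix: `q i j` is the least natural number that is not of the form
`q i k + q l j - q l k` with `l < i` and `k < j` (the difference taken in the integers). -/
noncomputable def q (i j : ℕ) : ℕ :=
  sInf {x : ℕ | ∀ l, l < i → ∀ k, k < j → (x : ℤ) ≠ (q i k : ℤ) + (q l j : ℤ) - (q l k : ℤ)}
termination_by (i, j)
decreasing_by
  · exact Prod.Lex.right _ (by assumption)
  · exact Prod.Lex.left _ _ (by assumption)
  · exact Prod.Lex.left _ _ (by assumption)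

/-- `x` is free at position `(i, j)`. -/
def Free (i j x : ℕ) : Prop :=
  ∀ l, l < i → ∀ k, k < j → (x : ℤ) ≠ (q i k : ℤ) + (q l j : ℤ) - (q l k : ℤ)

theorem q_eq (i j : ℕ) : q i j = sInf {x : ℕ | Free i j x} := by
  rw [q]; rfl

theorem exists_free (i j : ℕ) : ∃ x, Free i j x := by
  classical
  let T : Finset ℕ := ((Finset.range i) ×ˢ (Finset.range j)).image
    (fun p => ((q i p.2 : ℤ) + (q p.1 j : ℤ) - (q p.1 p.2 : ℤ)).toNat)
  obtain ⟨x, hx⟩ := Infinite.exists_notMem_finset T
  refine ⟨x, fun l hl k hk h => hx ?_⟩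
  simp only [T, Finset.mem_image, Finset.mem_product, Finset.mem_range]
  exact ⟨(l, k), ⟨hl, hk⟩, by simp only; rw [← h]; simp⟩

theorem free_q (i j : ℕ) : Free i j (q i j) := by
  rw [q_eq]
  exact Nat.sInf_mem (s := {x : ℕ | Free i j x}) (exists_free i j)

theorem q_le {i j x : ℕ} (h : Free i j x) : q i j ≤ x := by
  rw [q_eq]; exact Nat.sInf_le h

theorem blocked {i j x : ℕ} (h : x < q i j) :
    ∃ l, l < i ∧ ∃ k, k < j ∧ (x : ℤ) = (q i k : ℤ) + (q l j : ℤ) - (q l k : ℤ) := by
  by_contra hc
  push Not at hc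
  exact absurd (q_le (fun l hl k hk => hc l hl k hk)) (by omega)

/-- Characterisation of the entry as a mex. -/
theorem q_eq_of {i j x : ℕ} (h1 : Free i j x) (h2 : ∀ y, y < x → ¬ Free i j y) : q i j = x := by
  apply le_antisymm (q_le h1)
  by_contra hc
  exact h2 _ (not_le.mp hc) (free_q i j)

theorem q_zero (j : ℕ) : q 0 j = 0 :=
  Nat.le_zero.mp (q_le (fun l hl => absurd hl (Nat.not_lt_zero l)))

theorem q_col_zero (i : ℕ) : q i 0 = 0 :=
  Nat.le_zero.mp (q_le (fun _ _ k hk => absurd hk (Nat.not_lt_zero k)))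

theorem diff_ne {l i k j : ℕ} (hl : l < i) (hk : k < j) :
    (q i j : ℤ) - q l j ≠ (q i k : ℤ) - q l k := by
  intro h
  exact free_q i j l hl k hk (by omega)

theorem diff_inj {l i : ℕ} (hl : l < i) :
    Function.Injective (fun j => (q i j : ℤ) - q l j) := by
  intro a b h
  rcases lt_trichotomy a b with hab | hab | hab
  · exact absurd h.symm (diff_ne hl hab)
  · exact hab
  · exact absurd h (diff_ne hl hab)

theorem row_inj {i : ℕ} (hi : 0 < i) : Function.Injective (q i) := by
  intro a b h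
  apply diff_inj hi
  simp [q_zero, h]

theorem q_one (j : ℕ) : q 1 j = j := by
  induction j using Nat.strong_induction_on with
  | _ j ih =>
    apply q_eq_of
    · intro l hl k hk
      obtain rfl : l = 0 := by omega
      rw [ih k hk, q_zero, q_zero]
      push_cast; omega
    · intro y hy hf
      apply hf 0 (by omega) y hy
      rw [ih y hy, q_zero, q_zero]; simp

/-- Columns that are records simultaneously for the rows `1, ..., i - 1`. -/
def Rec (i : ℕ) : Set ℕ := {j | ∀ l, 1 ≤ l → l < i → ∀ k, k < j → q l k < q l j}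

/-- If the rows `1, ..., i-1` have infinitely many simultaneous records, row `i` is onto. -/
theorem surj_of_rec {i : ℕ} (hi : 0 < i) (h : (Rec i).Infinite) : Function.Surjective (q i) := by
  intro v
  by_contra hv
  push Not at hv
  apply h
  have hA : {j | q i j ≤ v}.Finite := by
    have : {j | q i j ≤ v} = (q i) ⁻¹' (Set.Iic v) := rfl
    rw [this]
    exact (Set.finite_Iic v).preimage (row_inj hi).injOn
  have hB : ∀ l k, 1 ≤ l → {j | (v : ℤ) = (q i k : ℤ) + (q l j : ℤ) - (q l k : ℤ)}.Finite := by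
    intro l k hl
    apply Set.Subsingleton.finite
    intro a ha b hb
    simp only [Set.mem_ofPred_eq] at ha hb
    apply row_inj (i := l) hl
    omega
  have hU : (⋃ l ∈ Set.Icc 1 i, ⋃ k ∈ {j | q i j ≤ v},
      {j | (v : ℤ) = (q i k : ℤ) + (q l j : ℤ) - (q l k : ℤ)}).Finite :=
    (Set.finite_Icc 1 i).biUnion fun l hl => hA.biUnion fun k _ => hB l k hl.1
  refine (hA.union hU).subset ?_
  intro j hj
  by_cases hjv : q i j ≤ v
  · exact Or.inl hjv
  · right
    obtain ⟨l, hl, k, hk, he⟩ := blocked (not_le.mp hjv)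
    rcases Nat.eq_zero_or_pos l with rfl | hl0
    · exfalso
      apply hv k
      rw [q_zero, q_zero] at he
      omega
    · have := hj l hl0 hl k hk
      simp only [Set.mem_iUnion]
      exact ⟨l, ⟨hl0, hl.le⟩, k, by simp only [Set.mem_ofPred_eq]; omega, he⟩

end Pool.Agent.Lib.MP_e4e265_co
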