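import Pool.Agent.Lib.MP_e4e265_co.Wythoff

namespace Pool.Agent.Lib.MP_e4e265_co

open Finset

/-- The largest excess `q 3 k - k` over the columns `k < N`. -/
noncomputable def exc (N : ℕ) : ℕ := (range N).sup (fun k => q 3 k - k)

theorem le_exc {k N : ℕ} (h : k < N) : q 3 k ≤ k + exc N := by
  have : q 3 k - k ≤ exc N := Finset.le_sup (f := fun k => q 3 k - k) (mem_range.mpr h)
  omega

theorem exc_succ (N : ℕ) : exc (N + 1) = max (q 3 N - N) (exc N) := by
  unfold exc
  rw [range_add_one, sup_insert]

/-- At an upper Wythoff column the excess grows by at most one. -/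
theorem three_b {n : ℕ} (hn : 0 < n) : q 3 (wb n) ≤ wb n + exc (wb n) + 1 := by
  apply q_le
  intro l hl k hk
  have h1 := le_exc hk
  obtain rfl | rfl | rfl : l = 0 ∨ l = 1 ∨ l = 2 := by omega
  · rw [q_zero, q_zero]; push_cast; omega
  · rw [q_one, q_one]; push_cast; omega
  · have := two_low hn hk
    push_cast; omega

theorem three_a {n : ℕ} (hn : 0 < n) (h : wa n ∉ Rec 4) : q 3 (wa n) ≤ wa n + exc (wa n) := by
  by_contra hc
  apply h
  intro l hl1 hl k hk
  obtain rfl | rfl | rfl : l = 1 ∨ l = 2 ∨ l = 3 := by omega
  · rw [q_one, q_one]; exact hk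
  · exact two_rec hn hk
  · have := le_exc hk
    omega

theorem exc_bound {J : ℕ} (hJ0 : 0 < J) (hJ : ∀ j, J ≤ j → j ∉ Rec 4) (N : ℕ) (hN : J ≤ N) :
    ∃ n, exc N ≤ exc J + n ∧ (n = 0 ∨ wb n < N) := by
  induction N, hN using Nat.le_induction with
  | base => exact ⟨0, le_rfl, Or.inl rfl⟩
  | succ N hN ih =>
    obtain ⟨n, h1, h2⟩ := ih
    rw [exc_succ]
    rcases wy_cover N (by omega) with ⟨m, hm, rfl⟩ | ⟨m, hm, rfl⟩
    · have := three_a hm (hJ _ hN)
      exact ⟨n, by omega, by omega⟩
    · have := three_b hm
      have hnm : n < m := by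
        rcases h2 with rfl | h2
        · exact hm
        · exact wb_strictMono.lt_iff_lt.mp h2
      exact ⟨m, by omega, Or.inr (by omega)⟩

theorem exc_inj {a b : ℕ} (h : (q 3 a : ℤ) - a = (q 3 b : ℤ) - b) : a = b := by
  apply diff_inj (l := 1) (i := 3) (by omega)
  simp only [q_one]
  exact h

/-- Columns below `N` where row 3 is below the diagonal. -/
noncomputable def low (N : ℕ) : Finset ℕ := (range N).filter (fun k => q 3 k < k)

theorem high_card (N : ℕ) : ((range N).filter (fun k => k < q 3 k)).card ≤ exc N := by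
  have : ((range N).filter (fun k => k < q 3 k)).card ≤ (Icc 1 (exc N)).card := by
    apply card_le_card_of_injOn (fun k => q 3 k - k)
    · intro k hk
      simp only [coe_filter, mem_range, Set.mem_ofPred_eq] at hk
      have := le_exc hk.1
      simp only [coe_Icc, Set.mem_Icc]
      omega
    · intro a ha b hb hab
      simp only [coe_filter, mem_range, Set.mem_ofPred_eq] at ha hb
      simp only at hab
      apply exc_inj
      omega
  simpa using this

theorem low_card (N : ℕ) : N ≤ (low N).card + exc N + 1 := by
  have h1 : range N ⊆ (low N ∪ (range N).filter (fun k => k < q 3 k)) ∪ {0} := by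
    intro k hk
    simp only [low, mem_union, mem_filter, mem_singleton]
    rcases lt_trichotomy (q 3 k) k with h | h | h
    · exact Or.inl (Or.inl ⟨hk, h⟩)
    · right
      apply exc_inj
      rw [h, q_col_zero]; simp
    · exact Or.inl (Or.inr ⟨hk, h⟩)
  have h2 := card_le_card h1
  have h3 := card_union_le (low N ∪ (range N).filter (fun k => k < q 3 k)) {0}
  have h4 := card_union_le (low N) ((range N).filter (fun k => k < q 3 k))
  have h5 := high_card N
  simp only [card_range, card_singleton] at h2 h3
  omega

theorem card_sq_le (s : Finset ℕ) : s.card * s.card ≤ 2 * ∑ x ∈ s, x + s.card := by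
  induction s using Finset.induction_on_max with
  | empty => simp
  | insert a s ha ih =>
    have hna : a ∉ s := fun h => lt_irrefl _ (ha a h)
    have hc : s.card ≤ a := by
      have : s ⊆ range a := fun x hx => mem_range.mpr (ha x hx)
      simpa using card_le_card this
    rw [card_insert_of_notMem hna, sum_insert hna]
    nlinarith

theorem card_sq_le_inj (s : Finset ℕ) (f : ℕ → ℕ) (hf : Set.InjOn f s) :
    s.card * s.card ≤ 2 * ∑ x ∈ s, f x + s.card := by
  have h := card_sq_le (s.image f)
  rw [card_image_of_injOn hf, sum_image hf] at h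
  exact h

theorem low_sum_lower (N : ℕ) :
    (low N).card * (low N).card ≤ ∑ k ∈ low N, k + (low N).card := by
  have h1 := card_sq_le_inj (low N) (fun k => q 3 k) (row_inj (by omega)).injOn
  have h2 := card_sq_le_inj (low N) (fun k => k - q 3 k) (by
    intro a ha b hb hab
    simp only [low, coe_filter, mem_range, Set.mem_ofPred_eq] at ha hb
    simp only at hab
    apply exc_inj
    omega)
  have h3 : ∑ k ∈ low N, k = ∑ k ∈ low N, q 3 k + ∑ k ∈ low N, (k - q 3 k) := by
    rw [← sum_add_distrib]
    apply sum_congr rfl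
    intro k hk
    simp only [low, mem_filter] at hk
    omega
  omega

theorem low_sum_upper {C : ℕ} (hC : ∀ N, 3 * N ≤ 5 * (low N).card + 5 * C) (N : ℕ) :
    6 * ∑ k ∈ low N, k ≤
      5 * ((low N).card * (low N).card) + 5 * (low N).card + 10 * (C * (low N).card) := by
  induction N with
  | zero => simp [low]
  | succ N ih =>
    have h := hC (N + 1)
    by_cases hN : q 3 N < N
    · have e : low (N + 1) = insert N (low N) := by
        simp only [low, range_add_one, filter_insert, hN, if_true]
      have hn : N ∉ low N := by simp [low]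
      rw [e, card_insert_of_notMem hn] at h
      rw [e, card_insert_of_notMem hn, sum_insert hn]
      nlinarith
    · have e : low (N + 1) = low N := by
        simp only [low, range_add_one, filter_insert, hN, if_false]
      rw [e]; exact ih

/-- Rows 1, 2, 3 have infinitely many simultaneous records. -/
theorem rec_four_infinite : (Rec 4).Infinite := by
  intro hfin
  obtain ⟨B, hB⟩ := hfin.bddAbove
  have hJ : ∀ j, B + 1 ≤ j → j ∉ Rec 4 := fun j hj h => by
    have := hB h
    omega
  have hC : ∀ N, 3 * N ≤ 5 * (low N).card + 5 * (exc (B + 1) + 1 + (B + 1)) := by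
    intro N
    rcases le_or_gt (B + 1) N with hN | hN
    · obtain ⟨n, h1, h2⟩ := exc_bound (by omega) hJ N hN
      have h3 := low_card N
      have h4 := wb_lower n
      omega
    · omega
  generalize exc (B + 1) + 1 + (B + 1) = C at hC
  have h1 := hC (20 * C + 20)
  have h2 := low_sum_upper hC (20 * C + 20)
  have h3 := low_sum_lower (20 * C + 20)
  generalize (low (20 * C + 20)).card = L at h1 h2 h3
  have h4 : 11 * C + 12 ≤ L := by omega
  nlinarith

theorem rec_mono {i i' : ℕ} (h : i ≤ i') : Rec i' ⊆ Rec i :=
  fun _ hj l hl1 hl k hk => hj l hl1 (by omega) k hk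

theorem row_bijective {i : ℕ} (h1 : 1 ≤ i) (h4 : i ≤ 4) : Function.Bijective (q i) :=
  ⟨row_inj h1, surj_of_rec h1 (rec_four_infinite.mono (rec_mono h4))⟩

end Pool.Agent.Lib.MP_e4e265_co
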