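import Pool.Agent.Lib.MP_e4e265_co.Basic

namespace Pool.Agent.Lib.MP_e4e265_co

open Real

/-- Lower Wythoff sequence. -/
noncomputable def wa (n : ℕ) : ℕ := ⌊(n : ℝ) * goldenRatio⌋₊

/-- Upper Wythoff sequence. -/
noncomputable def wb (n : ℕ) : ℕ := wa n + n

theorem wa_zero : wa 0 = 0 := by simp [wa]

theorem wa_strictMono : StrictMono wa := by
  apply strictMono_nat_of_lt_succ
  intro n
  have h1 : (1 : ℝ) < goldenRatio := one_lt_goldenRatio
  have h0 : (0 : ℝ) ≤ (n : ℝ) * goldenRatio := by positivity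
  have : wa n + 1 ≤ wa (n + 1) := by
    unfold wa
    apply Nat.le_floor
    push_cast
    have := Nat.floor_le h0
    nlinarith
  omega

theorem wb_strictMono : StrictMono wb := by
  intro m n h
  have := wa_strictMono h
  unfold wb; omega

theorem wb_lower (n : ℕ) : 5 * n ≤ 2 * wb n + 2 := by
  have h5 : (2.2 : ℝ) < √5 := by
    apply Real.lt_sqrt_of_sq_lt; norm_num
  have h1 : (1.6 : ℝ) < goldenRatio := by
    unfold goldenRatio; linarith
  have h2 : (n : ℝ) * goldenRatio < (wa n : ℝ) + 1 := Nat.lt_floor_add_one _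
  have h3 : (0 : ℝ) ≤ n := Nat.cast_nonneg n
  have h4 : (3 * n : ℝ) < 2 * (wa n : ℝ) + 2 + 1 := by nlinarith
  have h6 : 3 * n < 2 * wa n + 2 + 1 := by exact_mod_cast h4
  unfold wb; omega

theorem beatty_a (n : ℕ) : beattySeq goldenRatio n = wa n := by
  have h0 : (0 : ℝ) ≤ (n : ℝ) * goldenRatio := by
    have := goldenRatio_pos; positivity
  simp only [beattySeq, wa, Int.cast_natCast]
  rw [Int.natCast_floor_eq_floor h0]

theorem beatty_b (n : ℕ) : beattySeq (goldenRatio + 1) n = wb n := by
  have h := beatty_a n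
  simp only [beattySeq, Int.cast_natCast] at h ⊢
  rw [mul_add, mul_one, Int.floor_add_natCast, h]
  simp [wb]

theorem holder : goldenRatio.HolderConjugate (goldenRatio + 1) := by
  have h1 := one_lt_goldenRatio
  have h2 := goldenRatio_sq
  rw [Real.holderConjugate_iff]
  refine ⟨h1, ?_⟩
  generalize goldenRatio = g at h1 h2
  have h3 : g ≠ 0 := by linarith
  have h4 : g + 1 ≠ 0 := by linarith
  field_simp
  nlinarith

theorem wy_symm (x : ℕ) (hx : 0 < x) :
    ((∃ n, 0 < n ∧ wa n = x) ∧ ¬ ∃ n, 0 < n ∧ wb n = x) ∨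
      ((∃ n, 0 < n ∧ wb n = x) ∧ ¬ ∃ n, 0 < n ∧ wa n = x) := by
  have h := goldenRatio_irrational.beattySeq_symmDiff_beattySeq_pos holder
  have hx' : (x : ℤ) ∈ {n : ℤ | 0 < n} := by simpa using hx
  rw [← h, Set.mem_symmDiff] at hx'
  have ea : (x : ℤ) ∈ {y | ∃ k > 0, beattySeq goldenRatio k = y} ↔ ∃ n, 0 < n ∧ wa n = x := by
    constructor
    · rintro ⟨k, hk, he⟩
      lift k to ℕ using hk.le
      rw [beatty_a] at he
      exact ⟨k, by exact_mod_cast hk, by exact_mod_cast he⟩
    · rintro ⟨n, hn, he⟩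
      exact ⟨n, by exact_mod_cast hn, by rw [beatty_a, he]⟩
  have eb : (x : ℤ) ∈ {y | ∃ k > 0, beattySeq (goldenRatio + 1) k = y} ↔
      ∃ n, 0 < n ∧ wb n = x := by
    constructor
    · rintro ⟨k, hk, he⟩
      lift k to ℕ using hk.le
      rw [beatty_b] at he
      exact ⟨k, by exact_mod_cast hk, by exact_mod_cast he⟩
    · rintro ⟨n, hn, he⟩
      exact ⟨n, by exact_mod_cast hn, by rw [beatty_b, he]⟩
  rw [ea, eb] at hx'
  exact hx'

theorem wy_cover (x : ℕ) (hx : 0 < x) : (∃ n, 0 < n ∧ wa n = x) ∨ ∃ n, 0 < n ∧ wb n = x := by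
  rcases wy_symm x hx with h | h
  · exact Or.inl h.1
  · exact Or.inr h.1

theorem wa_pos {n : ℕ} (hn : 0 < n) : 0 < wa n := by
  have := wa_strictMono hn
  omega

theorem wy_ne {m n : ℕ} (hm : 0 < m) (hn : 0 < n) : wa m ≠ wb n := by
  intro h
  rcases wy_symm (wa m) (wa_pos hm) with h1 | h1
  · exact h1.2 ⟨n, hn, h.symm⟩
  · exact h1.2 ⟨m, hm, rfl⟩

/-- Row 2 is the Wythoff pairing. -/
theorem q_two_aux (j : ℕ) :
    (∀ n, 0 < n → wa n = j → q 2 j = wb n) ∧ (∀ n, 0 < n → wb n = j → q 2 j = wa n) := by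
  induction j using Nat.strong_induction_on with
  | _ j ih =>
    have hA : ∀ m, 0 < m → wa m < j → q 2 (wa m) = wb m := fun m hm h => (ih _ h).1 m hm rfl
    have hB : ∀ m, 0 < m → wb m < j → q 2 (wb m) = wa m := fun m hm h => (ih _ h).2 m hm rfl
    -- description of free values
    have hfree : ∀ x : ℕ, Free 2 j x ↔
        ∀ k, k < j → x ≠ q 2 k ∧ (x : ℤ) - j ≠ (q 2 k : ℤ) - k := by
      intro x
      constructor
      · intro h k hk
        have h0 := h 0 (by omega) k hk
        have h1 := h 1 (by omega) k hk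
        rw [q_zero, q_zero] at h0
        rw [q_one, q_one] at h1
        constructor <;> omega
      · intro h l hl k hk
        have := h k hk
        obtain rfl | rfl : l = 0 ∨ l = 1 := by omega
        · rw [q_zero, q_zero]; omega
        · rw [q_one, q_one]; omega
    have hcase : ∀ k, k < j → (k = 0 ∧ q 2 k = 0) ∨ (∃ m, 0 < m ∧ wa m = k ∧ q 2 k = wb m) ∨
        (∃ m, 0 < m ∧ wb m = k ∧ q 2 k = wa m) := by
      intro k hk
      rcases Nat.eq_zero_or_pos k with rfl | hk0
      · exact Or.inl ⟨rfl, q_col_zero 2⟩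
      · rcases wy_cover k hk0 with ⟨m, hm, rfl⟩ | ⟨m, hm, rfl⟩
        · exact Or.inr (Or.inl ⟨m, hm, rfl, hA m hm hk⟩)
        · exact Or.inr (Or.inr ⟨m, hm, rfl, hB m hm hk⟩)
    constructor
    · rintro n hn rfl
      have hpos := wa_pos hn
      apply q_eq_of
      · rw [hfree]
        intro k hk
        rcases hcase k hk with ⟨rfl, h⟩ | ⟨m, hm, rfl, h⟩ | ⟨m, hm, rfl, h⟩
        · rw [h]; unfold wb; constructor <;> omega
        · rw [h]
          have : m < n := wa_strictMono.lt_iff_lt.mp hk
          have := wb_strictMono this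
          unfold wb at *; constructor <;> omega
        · rw [h]
          have := wy_ne hm hn
          unfold wb at *; constructor <;> omega
      · intro y hy
        rw [hfree]
        intro hf
        rcases lt_trichotomy y (wa n) with hlt | heq | hgt
        · rcases Nat.eq_zero_or_pos y with rfl | hy0
          · exact (hf 0 hpos).1 (q_col_zero 2).symm
          · rcases wy_cover y hy0 with ⟨m, hm, rfl⟩ | ⟨m, hm, rfl⟩
            · have hmn : m < n := wa_strictMono.lt_iff_lt.mp hlt
              rcases lt_trichotomy (wb m) (wa n) with h1 | h1 | h1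
              · exact (hf _ h1).1 (hB m hm h1).symm
              · exact wy_ne hn hm h1.symm
              · obtain ⟨t, ht⟩ : ∃ t, wa n = wa m + t := ⟨wa n - wa m, by omega⟩
                have ht0 : 0 < t := by omega
                have htm : t < m := by unfold wb at h1; omega
                have h2 := wa_strictMono htm
                have h3 : wb t < wa n := by unfold wb; omega
                apply (hf _ h3).2
                rw [hB t ht0 h3]
                unfold wb; push_cast; omega
            · have h3 : wa m < wa n := by unfold wb at hlt; omega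
              exact (hf _ h3).1 (hA m hm h3).symm
        · apply (hf 0 hpos).2
          rw [q_col_zero, heq]; simp
        · obtain ⟨t, ht⟩ : ∃ t, y = wa n + t := ⟨y - wa n, by omega⟩
          have ht0 : 0 < t := by omega
          have htn : t < n := by unfold wb at hy; omega
          have h3 := wa_strictMono htn
          apply (hf _ h3).2
          rw [hA t ht0 h3]
          unfold wb; push_cast; omega
    · rintro n hn rfl
      have hpos := wa_pos hn
      apply q_eq_of
      · rw [hfree]
        intro k hk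
        rcases hcase k hk with ⟨rfl, h⟩ | ⟨m, hm, rfl, h⟩ | ⟨m, hm, rfl, h⟩
        · rw [h]; unfold wb; constructor <;> omega
        · rw [h]
          have := wy_ne hn hm
          unfold wb at *; constructor <;> omega
        · rw [h]
          have hmn : m < n := wb_strictMono.lt_iff_lt.mp hk
          have := wa_strictMono hmn
          unfold wb at *; constructor <;> omega
      · intro y hy
        rw [hfree]
        intro hf
        rcases Nat.eq_zero_or_pos y with rfl | hy0
        · exact (hf 0 (by unfold wb; omega)).1 (q_col_zero 2).symm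
        · rcases wy_cover y hy0 with ⟨m, hm, rfl⟩ | ⟨m, hm, rfl⟩
          · have hmn : m < n := wa_strictMono.lt_iff_lt.mp hy
            have h3 := wb_strictMono hmn
            exact (hf _ h3).1 (hB m hm h3).symm
          · have h3 : wa m < wb n := by unfold wb at *; omega
            exact (hf _ h3).1 (hA m hm h3).symm

theorem q_two_a {n : ℕ} (hn : 0 < n) : q 2 (wa n) = wb n := (q_two_aux _).1 n hn rfl

theorem q_two_b {n : ℕ} (hn : 0 < n) : q 2 (wb n) = wa n := (q_two_aux _).2 n hn rfl

theorem two_cases (k : ℕ) : (k = 0 ∧ q 2 k = 0) ∨ (∃ m, 0 < m ∧ wa m = k ∧ q 2 k = wb m) ∨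
    (∃ m, 0 < m ∧ wb m = k ∧ q 2 k = wa m) := by
  rcases Nat.eq_zero_or_pos k with rfl | hk0
  · exact Or.inl ⟨rfl, q_col_zero 2⟩
  · rcases wy_cover k hk0 with ⟨m, hm, rfl⟩ | ⟨m, hm, rfl⟩
    · exact Or.inr (Or.inl ⟨m, hm, rfl, q_two_a hm⟩)
    · exact Or.inr (Or.inr ⟨m, hm, rfl, q_two_b hm⟩)

/-- Lower Wythoff columns are records of row 2. -/
theorem two_rec {n k : ℕ} (hn : 0 < n) (hk : k < wa n) : q 2 k < q 2 (wa n) := by
  rw [q_two_a hn]
  rcases two_cases k with ⟨rfl, h⟩ | ⟨m, hm, rfl, h⟩ | ⟨m, hm, rfl, h⟩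
  · rw [h]; unfold wb; omega
  · rw [h]; exact wb_strictMono (wa_strictMono.lt_iff_lt.mp hk)
  · rw [h]; unfold wb at *; omega

/-- At an upper Wythoff column, `j - q 2 j` is a record. -/
theorem two_low {n k : ℕ} (hn : 0 < n) (hk : k < wb n) :
    (k : ℤ) - q 2 k < (wb n : ℤ) - q 2 (wb n) := by
  rw [q_two_b hn]
  rcases two_cases k with ⟨rfl, h⟩ | ⟨m, hm, rfl, h⟩ | ⟨m, hm, rfl, h⟩
  · rw [h]; unfold wb; push_cast; omega
  · rw [h]; unfold wb; push_cast; omega
  · rw [h]
    have := wb_strictMono.lt_iff_lt.mp hk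
    unfold wb; push_cast; omega

end Pool.Agent.Lib.MP_e4e265_co
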